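import Pool.Agent.N984.QS.FGZ2
import Pool.Agent.N991.QS.Stm

/-!
# Leaf FGZ of project QS (helper984 for helper991)
-/

set_option autoImplicit false

namespace Pool.Agent.N984.QS

open Pool.Agent.N991.QS

theorem t_FGZ (h : S_TAU) : S_FGZ := by
  intro H _ D P _ t hPD hD htD hDt hc hnil hno
  exact main D P t hPD hD htD hDt hc
    (fun s f hs hsub hadd => h (H ⧸ P) s f (quotient_nilpotent P hnil) hs hsub hadd) hno

end Pool.Agent.N984.QS
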