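import Pool.Agent.N984.QS.FGZCore
import Mathlib.GroupTheory.Index
import Mathlib.GroupTheory.Finiteness

/-!
# Leaf FGZ of project QS (helper984 for helper991): the statement without the wrapper
-/

set_option autoImplicit false

namespace Pool.Agent.N984.QS

theorem exists_dat {H : Type} [Group H] (D P : Subgroup H) [P.Normal] (t : H) (hPD : P ≤ D)
    (hD : D.FG) (hDt : ∀ d ∈ D, ∃ n : ℤ, d * t ^ n ∈ P) (hc : ∀ h : H, h * t * h⁻¹ * t⁻¹ ∈ P)
    (hn : ∀ n : ℤ, t ^ n ∈ P → n = 0) : ∃ T : Set H, Dat P T t := by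
  obtain ⟨S, hS, hfin⟩ := (Subgroup.fg_iff D).mp hD
  have hSD : ∀ s ∈ S, s ∈ D := fun s hs => hS ▸ Subgroup.subset_closure hs
  have hch : ∀ s : H, ∃ n : ℤ, s ∈ S → s * t ^ n ∈ P := fun s => by
    by_cases hs : s ∈ S
    · obtain ⟨n, hn⟩ := hDt s (hSD s hs)
      exact ⟨n, fun _ => hn⟩
    · exact ⟨0, fun h => absurd h hs⟩
  choose n hnP using hch
  refine ⟨(fun s => s * t ^ n s) '' S, hfin.image _, hc, ?_⟩
  set T : Set H := (fun s => s * t ^ n s) '' S with hT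
  have hTP : ∀ b ∈ T, b ∈ P := by
    rintro _ ⟨s, hs, rfl⟩
    exact hnP s hs
  have hE : E T t Set.univ ≤ P := by
    refine (Subgroup.closure_le _).mpr ?_
    rintro x ⟨i, -, b, hb, rfl⟩
    exact ‹P.Normal›.conj_mem _ (hTP b hb) _
  refine le_antisymm ?_ hE
  let K : Subgroup H :=
    { carrier := {x | ∃ m : ℤ, x * t ^ m ∈ E T t Set.univ}
      one_mem' := ⟨0, by simp [one_mem]⟩
      mul_mem' := by
        rintro x y ⟨a, ha⟩ ⟨b, hb⟩
        refine ⟨b + a, ?_⟩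
        have h1 := E_conj (J := Set.univ) (-a) (fun _ _ => Set.mem_univ _) hb
        have h2 : x * y * t ^ (b + a) = (x * t ^ a) * (t ^ (-a) * (y * t ^ b) * (t ^ (-a))⁻¹) := by
          rw [zpow_add]
          group
        rw [h2]
        exact mul_mem ha h1
      inv_mem' := by
        rintro x ⟨a, ha⟩
        refine ⟨-a, ?_⟩
        have h1 := E_conj (J := Set.univ) a (fun _ _ => Set.mem_univ _) (inv_mem ha)
        have h2 : x⁻¹ * t ^ (-a) = t ^ a * (x * t ^ a)⁻¹ * (t ^ a)⁻¹ := by group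
        rw [h2]
        exact h1 }
  have hSK : D ≤ K := by
    rw [← hS]
    refine (Subgroup.closure_le _).mpr ?_
    intro s hs
    refine ⟨n s, ?_⟩
    have h1 : s * t ^ n s ∈ T := ⟨s, hs, rfl⟩
    have h2 := E_gen (T := T) (t := t) (I := Set.univ) (Set.mem_univ 0) h1
    simpa using h2
  intro p hp
  obtain ⟨m, hm⟩ := hSK (hPD hp)
  have h1 : t ^ m ∈ P := by
    have h2 := mul_mem (inv_mem hp) (hE hm)
    rwa [inv_mul_cancel_left] at h2
  have h3 := hn m h1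
  rw [h3, zpow_zero, mul_one] at hm
  exact hm

theorem fg_of_pow {H : Type} [Group H] (D P : Subgroup H) [P.Normal] (t : H) (hPD : P ≤ D)
    (hD : D.FG) (htD : t ∈ D) (hDt : ∀ d ∈ D, ∃ n : ℤ, d * t ^ n ∈ P)
    (m : ℕ) (hm : 0 < m) (htm : t ^ m ∈ P) : P.FG := by
  have : Group.FG D := (Group.fg_iff_subgroup_fg D).mpr hD
  have hfin : Finite (D ⧸ P.subgroupOf D) := by
    refine Finite.of_surjective
      (fun j : Fin m => ((⟨t ^ (j : ℕ), pow_mem htD _⟩ : D) : D ⧸ P.subgroupOf D)) ?_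
    intro q
    induction q using QuotientGroup.induction_on with
    | H d =>
      obtain ⟨n, hn⟩ := hDt d d.2
      have hm' : (0 : ℤ) < m := by exact_mod_cast hm
      have h0 : 0 ≤ (-n) % (m : ℤ) := Int.emod_nonneg _ (ne_of_gt hm')
      have h1 : (-n) % (m : ℤ) < m := Int.emod_lt_of_pos _ hm'
      refine ⟨⟨((-n) % (m : ℤ)).toNat, by omega⟩, ?_⟩
      rw [QuotientGroup.eq, Subgroup.mem_subgroupOf]
      change (t ^ ((-n) % (m : ℤ)).toNat)⁻¹ * (d : H) ∈ P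
      have h2 : t ^ ((-n) % (m : ℤ)).toNat = t ^ ((-n) % (m : ℤ)) := by
        rw [← zpow_natCast, Int.toNat_of_nonneg h0]
      rw [h2]
      have h3 : (-n) % (m : ℤ) = -n - m * ((-n) / (m : ℤ)) := by
        have := Int.emod_add_mul_ediv (-n) m
        linarith
      rw [h3]
      have h4 : t ^ ((m : ℤ) * (-n / (m : ℤ))) ∈ P := by
        rw [zpow_mul, zpow_natCast]
        exact zpow_mem htm _
      have h5 : (t ^ (-n - (m : ℤ) * (-n / (m : ℤ))))⁻¹ * (d : H) =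
          t ^ ((m : ℤ) * (-n / (m : ℤ))) * (t ^ n * ((d : H) * t ^ n) * (t ^ n)⁻¹) := by
        rw [sub_eq_add_neg, zpow_add]
        group
      rw [h5]
      exact mul_mem h4 (‹P.Normal›.conj_mem _ hn _)
  have : (P.subgroupOf D).FiniteIndex := Subgroup.finiteIndex_of_finite_quotient
  have h1 : Group.FG (P.subgroupOf D) := Subgroup.fg_of_index_ne_zero _
  have h2 : (P.subgroupOf D).FG := (Group.fg_iff_subgroup_fg _).mp h1
  have h4 : (P.subgroupOf D).map D.subtype = P := by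
    rw [Subgroup.subgroupOf_map_subtype, inf_eq_left.mpr hPD]
  obtain ⟨S, hS, hfS⟩ := (Subgroup.fg_iff _).mp h2
  refine (Subgroup.fg_iff P).mpr ⟨D.subtype '' S, ?_, hfS.image _⟩
  rw [← MonoidHom.map_closure, hS, h4]

theorem main {H : Type} [Group H] (D P : Subgroup H) [P.Normal] (t : H) (hPD : P ≤ D)
    (hD : D.FG) (htD : t ∈ D) (hDt : ∀ d ∈ D, ∃ n : ℤ, d * t ^ n ∈ P)
    (hc : ∀ h : H, h * t * h⁻¹ * t⁻¹ ∈ P)
    (hT : ∀ (s : H ⧸ P) (f : H ⧸ P → ℝ), (∀ a, s * a = a * s) → (∀ a b, f (a * b) ≤ f a + f b) →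
      (∀ a, f (s * a) = f a + 1) → ∃ τ : Additive (H ⧸ P) →+ ℝ, τ (Additive.ofMul s) = 1)
    (hno : ∀ τ : Additive H →+ ℝ, τ (Additive.ofMul t) = 0) : P.FG := by
  by_cases h : ∃ m : ℕ, 0 < m ∧ t ^ m ∈ P
  · obtain ⟨m, hm, htm⟩ := h
    exact fg_of_pow D P t hPD hD htD hDt m hm htm
  · have hn : ∀ n : ℤ, t ^ n ∈ P → n = 0 := by
      intro n hn
      by_contra hne
      apply h
      refine ⟨n.natAbs, Int.natAbs_pos.mpr hne, ?_⟩
      rcases Int.natAbs_eq n with h1 | h1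
      · rw [h1, zpow_natCast] at hn
        exact hn
      · rw [h1, zpow_neg, zpow_natCast] at hn
        exact inv_mem_iff.mp hn
    obtain ⟨T, d⟩ := exists_dat D P t hPD hD hDt hc hn
    exact d.fg hT hno

theorem quotient_nilpotent {H : Type} [Group H] (P : Subgroup H) [P.Normal]
    (h : ∃ c : ℕ, (⊤ : Subgroup H).lowerCentralSeries c ≤ P) : Group.IsNilpotent (H ⧸ P) := by
  obtain ⟨c, hc⟩ := h
  refine Subgroup.nilpotent_iff_lowerCentralSeries.mpr ⟨c, ?_⟩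
  have h1 := Subgroup.map_lowerCentralSeries (S := (⊤ : Subgroup H)) (QuotientGroup.mk' P) c
  rw [← MonoidHom.range_eq_map, QuotientGroup.range_mk'] at h1
  rw [← h1, eq_bot_iff]
  rintro _ ⟨x, hx, rfl⟩
  rw [Subgroup.mem_bot]
  exact (QuotientGroup.eq_one_iff x).mpr (hc hx)

end Pool.Agent.N984.QS
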