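import Mathlib.GroupTheory.Nilpotent
import Mathlib.GroupTheory.Schreier
import Mathlib.Data.Int.ConditionallyCompleteOrder
import Mathlib.Algebra.Group.Int.TypeTags
import Mathlib.Data.Real.Basic
import Mathlib.Tactic

/-!
# A finite generation lemma (helper984, leaf FGZ of project QS of helper991)
-/

set_option autoImplicit false

namespace Pool.Agent.N984.QS

variable {H : Type} [Group H]

/-- The subgroup generated by the conjugates `t^i b t^(-i)`, `i ∈ I`, `b ∈ T`. -/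
def E (T : Set H) (t : H) (I : Set ℤ) : Subgroup H :=
  Subgroup.closure {x | ∃ i ∈ I, ∃ b ∈ T, x = t ^ i * b * (t ^ i)⁻¹}

theorem E_mono (T : Set H) (t : H) {I J : Set ℤ} (h : I ⊆ J) : E T t I ≤ E T t J :=
  Subgroup.closure_mono (by
    rintro x ⟨i, hi, b, hb, rfl⟩
    exact ⟨i, h hi, b, hb, rfl⟩)

theorem E_gen {T : Set H} {t : H} {I : Set ℤ} {i : ℤ} (hi : i ∈ I) {b : H} (hb : b ∈ T) :
    t ^ i * b * (t ^ i)⁻¹ ∈ E T t I :=
  Subgroup.subset_closure ⟨i, hi, b, hb, rfl⟩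

theorem E_conj {T : Set H} {t : H} {I J : Set ℤ} (j : ℤ) (h : ∀ i ∈ I, i + j ∈ J) {x : H}
    (hx : x ∈ E T t I) : t ^ j * x * (t ^ j)⁻¹ ∈ E T t J := by
  have h1 : E T t I ≤ (E T t J).comap (MulAut.conj (t ^ j)).toMonoidHom := by
    refine (Subgroup.closure_le _).mpr ?_
    rintro x ⟨i, hi, b, hb, rfl⟩
    change t ^ j * (t ^ i * b * (t ^ i)⁻¹) * (t ^ j)⁻¹ ∈ E T t J
    have h2 := E_gen (T := T) (t := t) (h i hi) hb
    have h3 : t ^ j * (t ^ i * b * (t ^ i)⁻¹) * (t ^ j)⁻¹ = t ^ (i + j) * b * (t ^ (i + j))⁻¹ := by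
      rw [add_comm i j, zpow_add]
      group
    rw [h3]
    exact h2
  exact h1 hx

/-- An element of `E I` is in `E F` for a bounded part `F` of `I`. -/
theorem E_bdd {T : Set H} {t : H} {I : Set ℤ} {x : H} (hx : x ∈ E T t I) :
    ∃ k : ℕ, x ∈ E T t (I ∩ Set.Icc (-(k : ℤ)) k) := by
  have hx' : x ∈ Subgroup.closure {x | ∃ i ∈ I, ∃ b ∈ T, x = t ^ i * b * (t ^ i)⁻¹} := hx
  refine Subgroup.closure_induction (p := fun x _ => ∃ k : ℕ, x ∈ E T t (I ∩ Set.Icc (-(k : ℤ)) k))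
    ?_ ?_ ?_ ?_ hx'
  · rintro x ⟨i, hi, b, hb, rfl⟩
    have hm : i ∈ I ∩ Set.Icc (-((i.natAbs : ℕ) : ℤ)) (i.natAbs : ℕ) := ⟨hi, by omega, by omega⟩
    exact ⟨i.natAbs, E_gen hm hb⟩
  · exact ⟨0, one_mem _⟩
  · rintro x y _ _ ⟨k, hk⟩ ⟨l, hl⟩
    refine ⟨k + l, mul_mem (E_mono T t ?_ hk) (E_mono T t ?_ hl)⟩
    · rintro i ⟨h1, h2, h3⟩
      refine ⟨h1, ?_, ?_⟩ <;> push_cast <;> linarith [h2, h3, Int.natCast_nonneg l]
    · rintro i ⟨h1, h2, h3⟩
      refine ⟨h1, ?_, ?_⟩ <;> push_cast <;> linarith [h2, h3, Int.natCast_nonneg k]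
  · rintro x _ ⟨k, hk⟩
    exact ⟨k, inv_mem hk⟩

/-- The same for finitely many elements. -/
theorem E_bdd_finite {T : Set H} {t : H} {I : Set ℤ} {S : Set H} (hS : S.Finite)
    (h : ∀ x ∈ S, x ∈ E T t I) : ∃ k : ℕ, ∀ x ∈ S, x ∈ E T t (I ∩ Set.Icc (-(k : ℤ)) k) := by
  induction S, hS using Set.Finite.induction_on with
  | empty => exact ⟨0, fun x hx => hx.elim⟩
  | @insert a s ha hs ih =>
    obtain ⟨k, hk⟩ := ih (fun x hx => h x (Set.mem_insert_of_mem _ hx))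
    obtain ⟨l, hl⟩ := E_bdd (h a (Set.mem_insert _ _))
    refine ⟨k + l, ?_⟩
    rintro x (rfl | hx)
    · refine E_mono T t ?_ hl
      rintro i ⟨h1, h2, h3⟩
      refine ⟨h1, ?_, ?_⟩ <;> push_cast <;> linarith [h2, h3, Int.natCast_nonneg k]
    · refine E_mono T t ?_ (hk x hx)
      rintro i ⟨h1, h2, h3⟩
      refine ⟨h1, ?_, ?_⟩ <;> push_cast <;> linarith [h2, h3, Int.natCast_nonneg l]

/-- The data: `T` finite in the normal subgroup `P`, `t` central modulo `P`, no power of `t` in `P`,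
`P` generated by all conjugates of `T` under powers of `t`. -/
structure Dat (P : Subgroup H) (T : Set H) (t : H) : Prop where
  fin : T.Finite
  cen : ∀ h : H, h * t * h⁻¹ * t⁻¹ ∈ P
  all : P = E T t Set.univ

variable {P : Subgroup H} [P.Normal] {T : Set H} {t : H}

/-- The inverse of `t`. -/
theorem Dat.inv (d : Dat P T t) : Dat P T t⁻¹ where
  fin := d.fin
  cen := fun h => by
    have h1 := d.cen (h * t⁻¹)
    have h2 := ‹P.Normal›.conj_mem _ (inv_mem h1) t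
    have h3 := d.cen h
    have h4 := ‹P.Normal›.conj_mem _ (inv_mem h3) (t⁻¹)
    -- h t⁻¹ h⁻¹ t = t⁻¹ (t h t⁻¹ h⁻¹) t
    have h5 : h * t⁻¹ * h⁻¹ * t⁻¹⁻¹ = t⁻¹ * (t * (h * t⁻¹ * h⁻¹)) * t⁻¹⁻¹ := by group
    have h6 : (h * t * h⁻¹ * t⁻¹)⁻¹ = t * (h * t⁻¹ * h⁻¹) := by group
    rw [h5, ← h6]
    exact h4
  all := by
    refine le_antisymm ?_ ?_
    · conv_lhs => rw [d.all]
      refine (Subgroup.closure_le _).mpr ?_
      rintro x ⟨i, -, b, hb, rfl⟩
      have h1 := E_gen (T := T) (t := t⁻¹) (I := Set.univ) (Set.mem_univ (-i)) hb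
      rw [inv_zpow', neg_neg] at h1
      exact h1
    · conv_rhs => rw [d.all]
      refine (Subgroup.closure_le _).mpr ?_
      rintro x ⟨i, -, b, hb, rfl⟩
      have h1 := E_gen (T := T) (t := t) (I := Set.univ) (Set.mem_univ (-i)) hb
      rw [inv_zpow']
      exact h1

/-- `g t^i g⁻¹ t^(-i)` is in `R_(a + max i 0)`. -/
theorem conj_zpow {u : H} {a : ℤ} (hu : u ∈ E T t (Set.Iic a)) (g : H)
    (hg : g * t * g⁻¹ * t⁻¹ = u) (i : ℤ) :
    g * t ^ i * g⁻¹ * (t ^ i)⁻¹ ∈ E T t (Set.Iic (a + max i 0)) := by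
  have hgt : g * t * g⁻¹ = u * t := by rw [← hg]; group
  have hpos : ∀ n : ℕ, g * t ^ n * g⁻¹ * (t ^ n)⁻¹ ∈ E T t (Set.Iic (a + n)) := by
    intro n
    induction n with
    | zero =>
      have : g * t ^ 0 * g⁻¹ * (t ^ 0)⁻¹ = 1 := by group
      rw [this]
      exact one_mem _
    | succ n ih =>
      have h1 : g * t ^ (n + 1) * g⁻¹ * (t ^ (n + 1))⁻¹ =
          u * (t ^ (1 : ℤ) * (g * t ^ n * g⁻¹ * (t ^ n)⁻¹) * (t ^ (1 : ℤ))⁻¹) := by
        have h2 : g * t ^ (n + 1) * g⁻¹ = (g * t * g⁻¹) * (g * t ^ n * g⁻¹) := by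
          rw [pow_succ']; group
        rw [h2, hgt, pow_succ']
        group
      rw [h1]
      refine mul_mem (E_mono T t (Set.Iic_subset_Iic.mpr (by push_cast; linarith [Int.natCast_nonneg n])) hu)
        (E_conj 1 (fun i hi => ?_) ih)
      have : i ≤ a + n := hi
      change i + 1 ≤ a + ((n + 1 : ℕ) : ℤ)
      push_cast
      linarith
  have hneg : ∀ n : ℕ, g * (t ^ n)⁻¹ * g⁻¹ * (t ^ n) ∈ E T t (Set.Iic a) := by
    intro n
    induction n with
    | zero =>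
      have : g * (t ^ 0)⁻¹ * g⁻¹ * (t ^ 0) = 1 := by group
      rw [this]
      exact one_mem _
    | succ n ih =>
      have h1 : g * (t ^ (n + 1))⁻¹ * g⁻¹ * (t ^ (n + 1)) =
          t ^ (-1 : ℤ) * (u⁻¹ * (g * (t ^ n)⁻¹ * g⁻¹ * (t ^ n))) * (t ^ (-1 : ℤ))⁻¹ := by
        have h2 : g * (t ^ (n + 1))⁻¹ * g⁻¹ = (g * t * g⁻¹)⁻¹ * (g * (t ^ n)⁻¹ * g⁻¹) := by
          rw [pow_succ]; group
        rw [h2, hgt, pow_succ]
        group
      rw [h1]
      refine E_conj (I := Set.Iic a) (-1) (fun i hi => ?_) (mul_mem (inv_mem hu) ih)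
      have : i ≤ a := hi
      change i + -1 ≤ a
      linarith
  rcases le_total 0 i with hi | hi
  · obtain ⟨n, rfl⟩ := Int.eq_ofNat_of_zero_le hi
    have h1 := hpos n
    rw [max_eq_left hi]
    simpa [zpow_natCast] using h1
  · obtain ⟨n, hn⟩ := Int.eq_ofNat_of_zero_le (neg_nonneg.mpr hi)
    have h2 : i = -(n : ℤ) := by omega
    subst h2
    rw [max_eq_right hi, add_zero]
    have h1 := hneg n
    simpa [zpow_neg, zpow_natCast] using h1

/-- CLAIM 1. -/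
theorem Dat.claim1 (d : Dat P T t) (g : H) :
    ∃ c : ℤ, ∀ n : ℤ, 0 ≤ n → ∀ x ∈ E T t (Set.Iic n), g * x * g⁻¹ ∈ E T t (Set.Iic (n + c)) := by
  have hu : g * t * g⁻¹ * t⁻¹ ∈ E T t Set.univ := d.all ▸ d.cen g
  obtain ⟨a, ha⟩ := E_bdd hu
  have ha' : g * t * g⁻¹ * t⁻¹ ∈ E T t (Set.Iic (a : ℤ)) :=
    E_mono T t (fun i hi => hi.2.2) ha
  have hTP : ∀ x ∈ (fun b => g * b * g⁻¹) '' T, x ∈ E T t Set.univ := by
    rintro _ ⟨b, hb, rfl⟩
    have h1 : b ∈ P := by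
      rw [d.all]
      have := E_gen (T := T) (t := t) (I := Set.univ) (Set.mem_univ 0) hb
      simpa using this
    have h2 : g * b * g⁻¹ ∈ P := ‹P.Normal›.conj_mem _ h1 g
    rw [← d.all]
    exact h2
  obtain ⟨b', hb'⟩ := E_bdd_finite (d.fin.image _) hTP
  refine ⟨max a b', fun n hn x hx => ?_⟩
  have hle : E T t (Set.Iic n) ≤ (E T t (Set.Iic (n + max (a : ℤ) b'))).comap
      (MulAut.conj g).toMonoidHom := by
    refine (Subgroup.closure_le _).mpr ?_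
    rintro x ⟨i, hi, b, hb, rfl⟩
    have hi : i ≤ n := hi
    change g * (t ^ i * b * (t ^ i)⁻¹) * g⁻¹ ∈ E T t (Set.Iic (n + max (a : ℤ) b'))
    have h1 := conj_zpow (T := T) ha' g rfl i
    have h2 : g * b * g⁻¹ ∈ E T t (Set.Iic (b' : ℤ)) :=
      E_mono T t (fun i hi => hi.2.2) (hb' _ ⟨b, hb, rfl⟩)
    have h3 := E_conj (J := Set.Iic (n + max (a : ℤ) b')) i (fun k hk => by
      have hk : k ≤ (b' : ℤ) := hk
      change k + i ≤ n + max (a : ℤ) b'
      have := le_max_right (a : ℤ) b'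
      linarith) h2
    have h4 : g * t ^ i * g⁻¹ * (t ^ i)⁻¹ ∈ E T t (Set.Iic (n + max (a : ℤ) b')) :=
      E_mono T t (Set.Iic_subset_Iic.mpr (by
        have := le_max_left (a : ℤ) b'
        have : max i 0 ≤ n := max_le hi hn
        linarith)) h1
    have h5 : g * (t ^ i * b * (t ^ i)⁻¹) * g⁻¹ =
        (g * t ^ i * g⁻¹ * (t ^ i)⁻¹) * (t ^ i * (g * b * g⁻¹) * (t ^ i)⁻¹) *
          (g * t ^ i * g⁻¹ * (t ^ i)⁻¹)⁻¹ := by group
    rw [h5]
    exact mul_mem (mul_mem h4 h3) (inv_mem h4)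
  exact hle hx

theorem R_step (n : ℤ) (h : E T t (Set.Iic 1) ≤ E T t (Set.Iic 0)) :
    E T t (Set.Iic (n + 1)) ≤ E T t (Set.Iic n) := by
  intro x hx
  have h1 : t ^ (-n) * x * (t ^ (-n))⁻¹ ∈ E T t (Set.Iic 1) :=
    E_conj (-n) (fun i hi => by
      have hi : i ≤ n + 1 := hi
      change i + -n ≤ 1
      linarith) hx
  have h2 := E_conj (J := Set.Iic n) n (fun i hi => by
      have hi : i ≤ 0 := hi
      change i + n ≤ n
      linarith) (h h1)
  have h3 : t ^ n * (t ^ (-n) * x * (t ^ (-n))⁻¹) * (t ^ n)⁻¹ = x := by group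
  rwa [h3] at h2

theorem R_strict (h : ¬ E T t (Set.Iic 1) ≤ E T t (Set.Iic 0)) {n m : ℤ}
    (hnm : E T t (Set.Iic n) ≤ E T t (Set.Iic m)) : n ≤ m := by
  by_contra hlt
  push Not at hlt
  apply h
  intro x hx
  have h1 : t ^ m * x * (t ^ m)⁻¹ ∈ E T t (Set.Iic m) := hnm (E_conj m (fun i hi => by
      have hi : i ≤ 1 := hi
      change i + m ≤ n
      linarith [Int.add_one_le_iff.mpr hlt]) hx)
  have h2 := E_conj (J := Set.Iic 0) (-m) (fun i hi => by
      have hi : i ≤ m := hi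
      change i + -m ≤ 0
      linarith) h1
  have h3 : t ^ (-m) * (t ^ m * x * (t ^ m)⁻¹) * (t ^ (-m))⁻¹ = x := by group
  rwa [h3] at h2

/-- The numbers `d` such that `g R_n g⁻¹ ≤ R_(n+d)` for all large `n`. -/
def Ds (T : Set H) (t g : H) : Set ℤ :=
  {d | ∃ N : ℤ, ∀ n : ℤ, N ≤ n → ∀ x ∈ E T t (Set.Iic n), g * x * g⁻¹ ∈ E T t (Set.Iic (n + d))}

theorem Dat.Ds_nonempty (d : Dat P T t) (g : H) : (Ds T t g).Nonempty := by
  obtain ⟨c, hc⟩ := d.claim1 g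
  exact ⟨c, 0, hc⟩

theorem Dat.Ds_bdd (d : Dat P T t) (h : ¬ E T t (Set.Iic 1) ≤ E T t (Set.Iic 0)) (g : H) :
    BddBelow (Ds T t g) := by
  obtain ⟨c, hc⟩ := d.claim1 g⁻¹
  refine ⟨-c, ?_⟩
  rintro e ⟨N, hN⟩
  set n : ℤ := max N (max 0 (-e)) with hn
  have h1 : N ≤ n := le_max_left _ _
  have h2 : -e ≤ n := le_trans (le_max_right _ _) (le_max_right _ _)
  have h3 : E T t (Set.Iic n) ≤ E T t (Set.Iic (n + e + c)) := by
    intro x hx
    have h4 := hc (n + e) (by linarith) _ (hN n h1 x hx)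
    have h5 : g⁻¹ * (g * x * g⁻¹) * g⁻¹⁻¹ = x := by group
    rwa [h5] at h4
  have h6 := R_strict h h3
  linarith

theorem Ds_mul {g h : H} {a b : ℤ} (ha : a ∈ Ds T t g) (hb : b ∈ Ds T t h) :
    a + b ∈ Ds T t (g * h) := by
  obtain ⟨N, hN⟩ := ha
  obtain ⟨M, hM⟩ := hb
  refine ⟨max M (N - b), fun n hn x hx => ?_⟩
  have h1 : M ≤ n := le_trans (le_max_left _ _) hn
  have h2 : N - b ≤ n := le_trans (le_max_right _ _) hn
  have h3 := hN (n + b) (by linarith) _ (hM n h1 x hx)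
  have h4 : g * h * x * (g * h)⁻¹ = g * (h * x * h⁻¹) * g⁻¹ := by group
  rw [h4, show n + (a + b) = n + b + a by ring]
  exact h3

theorem Ds_t : (1 : ℤ) ∈ Ds T t t := by
  refine ⟨0, fun n _ x hx => ?_⟩
  have h := E_conj (J := Set.Iic (n + 1)) 1 (fun i hi => by
      have hi : i ≤ n := hi
      change i + 1 ≤ n + 1
      linarith) hx
  rwa [zpow_one] at h

theorem Ds_tinv : (-1 : ℤ) ∈ Ds T t t⁻¹ := by
  refine ⟨0, fun n _ x hx => ?_⟩
  have h := E_conj (J := Set.Iic (n + -1)) (-1) (fun i hi => by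
      have hi : i ≤ n := hi
      change i + -1 ≤ n + -1
      linarith) hx
  rwa [zpow_neg_one] at h

omit [P.Normal] in
theorem Dat.Ds_p (d : Dat P T t) {p : H} (hp : p ∈ P) : (0 : ℤ) ∈ Ds T t p := by
  rw [d.all] at hp
  obtain ⟨k, hk⟩ := E_bdd hp
  refine ⟨k, fun n hn x hx => ?_⟩
  have h1 : p ∈ E T t (Set.Iic n) := E_mono T t (fun i hi => le_trans hi.2.2 hn) hk
  rw [add_zero]
  exact mul_mem (mul_mem h1 hx) (inv_mem h1)

/-- CLAIM 2. -/
theorem Dat.claim2 (d : Dat P T t)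
    (hT : ∀ (s : H ⧸ P) (f : H ⧸ P → ℝ), (∀ a, s * a = a * s) → (∀ a b, f (a * b) ≤ f a + f b) →
      (∀ a, f (s * a) = f a + 1) → ∃ τ : Additive (H ⧸ P) →+ ℝ, τ (Additive.ofMul s) = 1)
    (hno : ∀ τ : Additive H →+ ℝ, τ (Additive.ofMul t) = 0) :
    P ≤ E T t (Set.Iic 0) := by
  by_cases h : E T t (Set.Iic 1) ≤ E T t (Set.Iic 0)
  · intro x hx
    rw [d.all] at hx
    obtain ⟨k, hk⟩ := E_bdd hx
    have h1 : x ∈ E T t (Set.Iic (k : ℤ)) := E_mono T t (fun i hi => hi.2.2) hk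
    have h2 : ∀ n : ℕ, E T t (Set.Iic (n : ℤ)) ≤ E T t (Set.Iic 0) := by
      intro n
      induction n with
      | zero => exact le_of_eq (by simp)
      | succ n ih =>
        refine le_trans ?_ ih
        have := R_step (n : ℤ) h
        push_cast
        exact this
    exact h2 k h1
  · exfalso
    have hne := d.Ds_nonempty
    have hbd := d.Ds_bdd h
    have hmem : ∀ g, sInf (Ds T t g) ∈ Ds T t g := fun g => Int.csInf_mem (hne g) (hbd g)
    have hle : ∀ g a, a ∈ Ds T t g → sInf (Ds T t g) ≤ a := fun g a ha => csInf_le (hbd g) ha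
    have hsub : ∀ g k, sInf (Ds T t (g * k)) ≤ sInf (Ds T t g) + sInf (Ds T t k) := fun g k =>
      hle _ _ (Ds_mul (hmem g) (hmem k))
    have hgp1 : ∀ g p, p ∈ P → sInf (Ds T t (g * p)) ≤ sInf (Ds T t g) := fun g p hp => by
      have := Ds_mul (hmem g) (d.Ds_p hp)
      rw [add_zero] at this
      exact hle _ _ this
    have hgp : ∀ g p, p ∈ P → sInf (Ds T t (g * p)) = sInf (Ds T t g) := fun g p hp => by
      refine le_antisymm (hgp1 g p hp) ?_
      have := hgp1 (g * p) p⁻¹ (inv_mem hp)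
      rwa [mul_inv_cancel_right] at this
    have htg : ∀ g, sInf (Ds T t (t * g)) = sInf (Ds T t g) + 1 := fun g => by
      refine le_antisymm ?_ ?_
      · have := Ds_mul Ds_t (hmem g)
        rw [add_comm] at this
        exact hle _ _ this
      · have h1 := Ds_mul Ds_tinv (hmem (t * g))
        rw [inv_mul_cancel_left] at h1
        have := hle _ _ h1
        linarith
    let f : H ⧸ P → ℝ := fun a => ((sInf (Ds T t a.out) : ℤ) : ℝ)
    have hf : ∀ g : H, f (g : H ⧸ P) = ((sInf (Ds T t g) : ℤ) : ℝ) := fun g => by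
      obtain ⟨p, hp⟩ := QuotientGroup.mk_out_eq_mul P g
      change ((sInf (Ds T t (Quotient.out (g : H ⧸ P))) : ℤ) : ℝ) = _
      rw [hp, hgp g p p.2]
    obtain ⟨τ, hτ⟩ := hT (t : H ⧸ P) f (fun a => by
        induction a using QuotientGroup.induction_on with
        | H a =>
          rw [← QuotientGroup.mk_mul, ← QuotientGroup.mk_mul, QuotientGroup.eq]
          have h1 := inv_mem (d.cen a⁻¹)
          have h2 : (a⁻¹ * t * a⁻¹⁻¹ * t⁻¹)⁻¹ = t * a⁻¹ * t⁻¹ * a := by group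
          have h3 := ‹P.Normal›.conj_mem _ h1 (a⁻¹ * t⁻¹)
          have h4 : a⁻¹ * t⁻¹ * (a⁻¹ * t * a⁻¹⁻¹ * t⁻¹)⁻¹ * (a⁻¹ * t⁻¹)⁻¹ =
            (a⁻¹ * a⁻¹) * t⁻¹ * a * t * a := by group
          have h5 := d.cen a
          have h6 := ‹P.Normal›.conj_mem _ h5 ((t * a)⁻¹)
          have h7 : (t * a)⁻¹ * (a * t * a⁻¹ * t⁻¹) * ((t * a)⁻¹)⁻¹ = (t * a)⁻¹ * (a * t) := by
            group
          rw [h7] at h6
          exact h6) (fun a b => by
        induction a using QuotientGroup.induction_on with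
        | H a =>
          induction b using QuotientGroup.induction_on with
          | H b =>
            rw [← QuotientGroup.mk_mul, hf, hf, hf]
            exact_mod_cast hsub a b) (fun a => by
        induction a using QuotientGroup.induction_on with
        | H a =>
          rw [← QuotientGroup.mk_mul, hf, hf]
          exact_mod_cast htg a)
    have h1 := hno (τ.comp (MonoidHom.toAdditive (QuotientGroup.mk' P)))
    have h2 : (τ.comp (MonoidHom.toAdditive (QuotientGroup.mk' P))) (Additive.ofMul t) =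
        τ (Additive.ofMul (t : H ⧸ P)) := rfl
    rw [h2, hτ] at h1
    exact one_ne_zero h1

/-- `P` is finitely generated. -/
theorem Dat.fg (d : Dat P T t)
    (hT : ∀ (s : H ⧸ P) (f : H ⧸ P → ℝ), (∀ a, s * a = a * s) → (∀ a b, f (a * b) ≤ f a + f b) →
      (∀ a, f (s * a) = f a + 1) → ∃ τ : Additive (H ⧸ P) →+ ℝ, τ (Additive.ofMul s) = 1)
    (hno : ∀ τ : Additive H →+ ℝ, τ (Additive.ofMul t) = 0) : P.FG := by
  have h0 := d.claim2 hT hno
  have h1 := d.inv.claim2 hT (fun τ => by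
    have := hno τ
    have h2 : Additive.ofMul t⁻¹ = -Additive.ofMul t := rfl
    rw [h2, map_neg, this, neg_zero])
  -- `P` is generated by the conjugates with `i ≥ 0`
  have h1' : P ≤ E T t (Set.Ici 0) := by
    intro x hx
    have h2 := h1 hx
    have h3 : E T t⁻¹ (Set.Iic 0) ≤ E T t (Set.Ici 0) := by
      refine (Subgroup.closure_le _).mpr ?_
      rintro x ⟨i, hi, b, hb, rfl⟩
      have hi : i ≤ 0 := hi
      have hm : -i ∈ Set.Ici (0 : ℤ) := by
        change 0 ≤ -i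
        linarith
      have h4 := E_gen (T := T) (t := t) hm hb
      rw [inv_zpow']
      exact h4
    exact h3 h2
  have hTP : ∀ b ∈ T, b ∈ P := fun b hb => by
    rw [d.all]
    have := E_gen (T := T) (t := t) (I := Set.univ) (Set.mem_univ 0) hb
    simpa using this
  have hfin1 : ((fun b => t ^ (1 : ℤ) * b * (t ^ (1 : ℤ))⁻¹) '' T).Finite := d.fin.image _
  have hfin2 : ((fun b => t ^ (-1 : ℤ) * b * (t ^ (-1 : ℤ))⁻¹) '' T).Finite := d.fin.image _
  obtain ⟨k, hk⟩ := E_bdd_finite (T := T) (t := t) (I := Set.Iic 0) hfin1 (by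
    rintro _ ⟨b, hb, rfl⟩
    exact h0 (‹P.Normal›.conj_mem _ (hTP b hb) _))
  obtain ⟨l, hl⟩ := E_bdd_finite (T := T) (t := t) (I := Set.Ici 0) hfin2 (by
    rintro _ ⟨b, hb, rfl⟩
    exact h1' (‹P.Normal›.conj_mem _ (hTP b hb) _))
  set K : ℤ := (k : ℤ) + l with hK
  have hk0 : (0 : ℤ) ≤ k := Int.natCast_nonneg k
  have hl0 : (0 : ℤ) ≤ l := Int.natCast_nonneg l
  have hup : ∀ b ∈ T, t ^ (1 : ℤ) * b * (t ^ (1 : ℤ))⁻¹ ∈ E T t (Set.Icc (-K) 0) := fun b hb =>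
    E_mono T t (fun i hi => by
      have h5 : -(k : ℤ) ≤ i := hi.2.1
      have h6 : -K ≤ i ∧ i ≤ 0 := ⟨by linarith, hi.1⟩
      exact h6) (hk _ ⟨b, hb, rfl⟩)
  have hdown : ∀ b ∈ T, t ^ (-K - 1) * b * (t ^ (-K - 1))⁻¹ ∈ E T t (Set.Icc (-K) 0) := fun b hb => by
    have h2 := E_conj (J := Set.Icc (-K) 0) (-K) (fun i hi => by
      have h3 : (0 : ℤ) ≤ i := hi.1
      have h5 : i ≤ (l : ℤ) := hi.2.2
      have h6 : -K ≤ i + -K ∧ i + -K ≤ 0 := ⟨by linarith, by linarith⟩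
      exact h6) (hl _ ⟨b, hb, rfl⟩)
    have h4 : t ^ (-K) * (t ^ (-1 : ℤ) * b * (t ^ (-1 : ℤ))⁻¹) * (t ^ (-K))⁻¹ =
        t ^ (-K - 1) * b * (t ^ (-K - 1))⁻¹ := by
      rw [sub_eq_add_neg, zpow_add]
      group
    rwa [← h4]
  have hst1 : ∀ x ∈ E T t (Set.Icc (-K) 0), t * x * t⁻¹ ∈ E T t (Set.Icc (-K) 0) := by
    have hle : E T t (Set.Icc (-K) 0) ≤ (E T t (Set.Icc (-K) 0)).comap
        (MulAut.conj t).toMonoidHom := by
      refine (Subgroup.closure_le _).mpr ?_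
      rintro x ⟨i, hi, b, hb, rfl⟩
      change t * (t ^ i * b * (t ^ i)⁻¹) * t⁻¹ ∈ E T t (Set.Icc (-K) 0)
      have h2 : t * (t ^ i * b * (t ^ i)⁻¹) * t⁻¹ = t ^ (i + 1) * b * (t ^ (i + 1))⁻¹ := by
        rw [add_comm i 1, zpow_add, zpow_one]
        group
      rw [h2]
      rcases lt_or_eq_of_le hi.2 with h3 | h3
      · have hm : i + 1 ∈ Set.Icc (-K) 0 :=
          ⟨by linarith [hi.1], by linarith [Int.add_one_le_iff.mpr h3]⟩
        exact E_gen hm hb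
      · rw [h3, zero_add]
        exact hup b hb
    exact fun x hx => hle hx
  have hst2 : ∀ x ∈ E T t (Set.Icc (-K) 0), t⁻¹ * x * t ∈ E T t (Set.Icc (-K) 0) := by
    have hle : E T t (Set.Icc (-K) 0) ≤ (E T t (Set.Icc (-K) 0)).comap
        (MulAut.conj t⁻¹).toMonoidHom := by
      refine (Subgroup.closure_le _).mpr ?_
      rintro x ⟨i, hi, b, hb, rfl⟩
      change t⁻¹ * (t ^ i * b * (t ^ i)⁻¹) * t⁻¹⁻¹ ∈ E T t (Set.Icc (-K) 0)
      have h2 : t⁻¹ * (t ^ i * b * (t ^ i)⁻¹) * t⁻¹⁻¹ = t ^ (i - 1) * b * (t ^ (i - 1))⁻¹ := by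
        rw [sub_eq_add_neg, add_comm i (-1), zpow_add, zpow_neg_one]
        group
      rw [h2]
      rcases lt_or_eq_of_le hi.1 with h3 | h3
      · have hm : i - 1 ∈ Set.Icc (-K) 0 :=
          ⟨by linarith [Int.add_one_le_iff.mpr h3], by linarith [hi.2]⟩
        exact E_gen hm hb
      · rw [← h3]
        exact hdown b hb
    exact fun x hx => by simpa using hle hx
  have hT0 : ∀ b ∈ T, b ∈ E T t (Set.Icc (-K) 0) := fun b hb => by
    have hm : (0 : ℤ) ∈ Set.Icc (-K) 0 := ⟨by linarith, le_refl 0⟩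
    have := E_gen (T := T) (t := t) hm hb
    simpa using this
  have hpow : ∀ (n : ℕ) (x : H), x ∈ E T t (Set.Icc (-K) 0) →
      t ^ n * x * (t ^ n)⁻¹ ∈ E T t (Set.Icc (-K) 0) ∧
      (t ^ n)⁻¹ * x * t ^ n ∈ E T t (Set.Icc (-K) 0) := by
    intro n
    induction n with
    | zero => intro x hx; simpa using hx
    | succ n ih =>
      intro x hx
      obtain ⟨h2, h3⟩ := ih x hx
      refine ⟨?_, ?_⟩
      · have h4 := hst1 _ h2
        have h5 : t * (t ^ n * x * (t ^ n)⁻¹) * t⁻¹ = t ^ (n + 1) * x * (t ^ (n + 1))⁻¹ := by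
          rw [pow_succ']; group
        rwa [h5] at h4
      · have h4 := hst2 _ h3
        have h5 : t⁻¹ * ((t ^ n)⁻¹ * x * t ^ n) * t = (t ^ (n + 1))⁻¹ * x * t ^ (n + 1) := by
          rw [pow_succ]; group
        rwa [h5] at h4
  have hPE : P = E T t (Set.Icc (-K) 0) := by
    refine le_antisymm ?_ ?_
    · conv_lhs => rw [d.all]
      refine (Subgroup.closure_le _).mpr ?_
      rintro x ⟨i, -, b, hb, rfl⟩
      rcases le_total 0 i with hi | hi
      · obtain ⟨n, rfl⟩ := Int.eq_ofNat_of_zero_le hi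
        have := (hpow n b (hT0 b hb)).1
        change t ^ (n : ℤ) * b * (t ^ (n : ℤ))⁻¹ ∈ E T t (Set.Icc (-K) 0)
        rw [zpow_natCast]
        exact this
      · obtain ⟨n, hn⟩ := Int.eq_ofNat_of_zero_le (neg_nonneg.mpr hi)
        have h2 : i = -(n : ℤ) := by omega
        subst h2
        have := (hpow n b (hT0 b hb)).2
        change t ^ (-(n : ℤ)) * b * (t ^ (-(n : ℤ)))⁻¹ ∈ E T t (Set.Icc (-K) 0)
        rw [zpow_neg, zpow_natCast, inv_inv]
        exact this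
    · conv_rhs => rw [d.all]
      exact E_mono T t (Set.subset_univ _)
  rw [hPE]
  refine (Subgroup.fg_iff _).mpr ⟨_, rfl, ?_⟩
  have h2 : {x | ∃ i ∈ Set.Icc (-K) 0, ∃ b ∈ T, x = t ^ i * b * (t ^ i)⁻¹} =
      Set.image2 (fun (i : ℤ) b => t ^ i * b * (t ^ i)⁻¹) (Set.Icc (-K) 0) T := by
    ext x
    constructor
    · rintro ⟨i, hi, b, hb, rfl⟩
      exact ⟨i, hi, b, hb, rfl⟩
    · rintro ⟨i, hi, b, hb, rfl⟩
      exact ⟨i, hi, b, hb, rfl⟩
  rw [h2]
  exact (Set.finite_Icc _ _).image2 _ d.fin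

end Pool.Agent.N984.QS
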